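import Pool.Agent.Helper35.GA.Codes

/-!
# GA-10: the vectors of the instance
-/

set_option autoImplicit false

namespace Pool.Agent.Helper36.Alg

open Finset Pool.Agent.Helper36.PT
open Pool.Agent.Helper36.Pin (Sparse rk edges nbr ThreeConn RedRigid GR completeOn Pins pin IsEnd
  Forced Complete coloops core blocks fill Gen0 Gen Coord Line Blk At0 At lines)

namespace GAten

/-- The indicator of the coordinate `z` at the place `y`. -/
noncomputable def cs (p n : ℕ) (R : ℕ → ℕ → Prop) (y : ℕ) (z : Coord (gr n R)) : ZMod p :=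
  ((ind (y = codeC n R z) : ℕ) : ZMod p)

theorem cs_code (p n : ℕ) [Fact p.Prime] (R : ℕ → ℕ → Prop) (x z : Coord (gr n R)) :
    cs p n R (codeC n R x) z = PinK.single z x := by
  unfold cs PinK.single ind
  by_cases h : x = z
  · rw [if_pos h, if_pos (by rw [h]), Nat.cast_one]
  · rw [if_neg h, if_neg fun h' => h (codeC_inj n R h'), Nat.cast_zero]

theorem cs_zero (p n : ℕ) (R : ℕ → ℕ → Prop) (y : ℕ) (hy : ∀ x, codeC n R x ≠ y)
    (z : Coord (gr n R)) : cs p n R y z = 0 := by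
  unfold cs ind
  rw [if_neg fun h => hy z h.symm, Nat.cast_zero]

theorem lt_of_line {n v g : ℕ} (hv : v < n) (hg : g < NG n) : v * NG n + g < n * NG n := by
  calc v * NG n + g < v * NG n + NG n := by omega
    _ = (v + 1) * NG n := by ring
    _ ≤ n * NG n := Nat.mul_le_mul_right _ hv

theorem div_line {n v g : ℕ} (hg : g < NG n) : (v * NG n + g) / NG n = v := by
  have h0 : 0 < NG n := by omega
  rw [mul_comm, Nat.mul_add_div h0, Nat.div_eq_of_lt hg, add_zero]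

theorem mod_line {n v g : ℕ} (hg : g < NG n) : (v * NG n + g) % NG n = g := by
  rw [mul_comm, Nat.mul_add_mod, Nat.mod_eq_of_lt hg]

theorem vA_pair (p : ℕ) [hp : Fact p.Prime] (n : ℕ) (R : ℕ → ℕ → Prop) (v : Fin n)
    (a b : Gen0 (gr n R)) (y : ℕ) :
    ((vA p n (codeL n R (Sum.inl (v, Sum.inl (a, b)))) y : ℕ) : ZMod p) =
      cs p n R y (Sum.inl a) - cs p n R y (Sum.inl b) := by
  have hg := codeG_lt n R (Sum.inl (a, b))
  have ha := code0_lt n R a
  have hb := code0_lt n R b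
  have h1 : codeL n R (Sum.inl (v, Sum.inl (a, b))) =
      (v : ℕ) * NG n + codeG n R (Sum.inl (a, b)) := rfl
  have h2 : codeG n R (Sum.inl (a, b)) = code0 n R a * (2 * n ^ 2) + code0 n R b := rfl
  have h3 : codeG n R (Sum.inl (a, b)) < 4 * n ^ 4 := by
    rw [h2]
    calc code0 n R a * (2 * n ^ 2) + code0 n R b
        < code0 n R a * (2 * n ^ 2) + 2 * n ^ 2 := by omega
      _ = (code0 n R a + 1) * (2 * n ^ 2) := by ring
      _ ≤ (2 * n ^ 2) * (2 * n ^ 2) := Nat.mul_le_mul_right _ ha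
      _ = 4 * n ^ 4 := by ring
  have h4 : codeG n R (Sum.inl (a, b)) / (2 * n ^ 2) = code0 n R a := by
    rw [h2, mul_comm, Nat.mul_add_div (by omega), Nat.div_eq_of_lt hb, add_zero]
  have h5 : codeG n R (Sum.inl (a, b)) % (2 * n ^ 2) = code0 n R b := by
    rw [h2, mul_comm, Nat.mul_add_mod, Nat.mod_eq_of_lt hb]
  unfold vA
  rw [h1, if_pos (lt_of_line v.2 hg), div_line hg, mod_line hg]
  unfold gvN
  rw [if_pos h3, h4, h5, Nat.cast_add, Nat.cast_mul, Nat.cast_sub hp.out.one_le, Nat.cast_one,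
    ZMod.natCast_self, zero_sub, neg_one_mul, ← sub_eq_add_neg]
  rfl

theorem vA_block (p : ℕ) (n : ℕ) (R : ℕ → ℕ → Prop) (v : Fin n)
    (X : Blk (gr n R)) (i : Fin (Fintype.card (Fin n))) (y : ℕ) :
    ((vA p n (codeL n R (Sum.inl (v, Sum.inr (X, i)))) y : ℕ) : ZMod p) =
      cs p n R y (Sum.inr (Sum.inl (X, i, 0))) +
        ((v : ℕ) : ZMod p) * cs p n R y (Sum.inr (Sum.inl (X, i, 1))) := by
  have hg := codeG_lt n R (Sum.inr (X, i))
  have h1 : codeL n R (Sum.inl (v, Sum.inr (X, i))) =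
      (v : ℕ) * NG n + codeG n R (Sum.inr (X, i)) := rfl
  have h2 : codeG n R (Sum.inr (X, i)) =
      4 * n ^ 4 + ((exists_code X.2).choose * n + (i : ℕ)) := rfl
  unfold vA
  rw [h1, if_pos (lt_of_line v.2 hg), div_line hg, mod_line hg]
  unfold gvN
  rw [if_neg (by rw [h2]; omega), h2, Nat.add_sub_cancel_left, Nat.cast_add, Nat.cast_mul]
  rfl

theorem vA_vertex (p : ℕ) (n : ℕ) (R : ℕ → ℕ → Prop) (v : Fin n) (y : ℕ) :
    ((vA p n (codeL n R (Sum.inr v)) y : ℕ) : ZMod p) =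
      cs p n R y (Sum.inr (Sum.inr (v, 0))) := by
  have h1 : codeL n R (Sum.inr v) = n * NG n + (v : ℕ) := rfl
  unfold vA
  rw [h1, if_neg (by omega), Nat.add_sub_cancel_left]
  rfl

theorem vB_gen (p : ℕ) (n : ℕ) (R : ℕ → ℕ → Prop) (v : Fin n)
    (g : Gen (gr n R)) (y : ℕ) :
    ((vB n (codeL n R (Sum.inl (v, g))) y : ℕ) : ZMod p) =
      cs p n R y (Sum.inr (Sum.inr (v, 0))) +
        ((codeG n R g : ℕ) : ZMod p) * cs p n R y (Sum.inr (Sum.inr (v, 1))) := by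
  have hg := codeG_lt n R g
  have h1 : codeL n R (Sum.inl (v, g)) = (v : ℕ) * NG n + codeG n R g := rfl
  unfold vB
  rw [h1, if_pos (lt_of_line v.2 hg), div_line hg, mod_line hg, Nat.cast_add, Nat.cast_mul]
  rfl

theorem vB_vertex (p : ℕ) (n : ℕ) (R : ℕ → ℕ → Prop) (v : Fin n) (y : ℕ) :
    ((vB n (codeL n R (Sum.inr v)) y : ℕ) : ZMod p) =
      cs p n R y (Sum.inr (Sum.inr (v, 1))) := by
  have h1 : codeL n R (Sum.inr v) = n * NG n + (v : ℕ) := rfl
  unfold vB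
  rw [h1, if_neg (by omega), Nat.add_sub_cancel_left]
  rfl

end GAten

open GAten

theorem vA_code {p : ℕ} [hp : Fact p.Prime] (n : ℕ) (R : ℕ → ℕ → Prop) (l : Line (gr n R))
    (x : Coord (gr n R)) : ((vA p n (codeL n R l) (codeC n R x) : ℕ) : ZMod p) =
      PinK.vec (gr n R) (fun v => ((v : ℕ) : ZMod p)) (fun g => ((codeG n R g : ℕ) : ZMod p))
        l 0 x := by
  rcases l with ⟨v, ⟨a, b⟩ | ⟨X, i⟩⟩ | v
  · rw [vA_pair, cs_code, cs_code]
    rfl
  · rw [vA_block, cs_code, cs_code]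
    rfl
  · rw [vA_vertex, cs_code]
    rfl

theorem vB_code {p : ℕ} [hp : Fact p.Prime] (n : ℕ) (R : ℕ → ℕ → Prop) (l : Line (gr n R))
    (x : Coord (gr n R)) : ((vB n (codeL n R l) (codeC n R x) : ℕ) : ZMod p) =
      PinK.vec (gr n R) (fun v => ((v : ℕ) : ZMod p)) (fun g => ((codeG n R g : ℕ) : ZMod p))
        l 1 x := by
  rcases l with ⟨v, g⟩ | v
  · rw [vB_gen, cs_code, cs_code]
    rfl
  · rw [vB_vertex, cs_code]
    rfl

theorem vA_zero {p : ℕ} [hp : Fact p.Prime] (n : ℕ) (R : ℕ → ℕ → Prop) (l : Line (gr n R))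
    (y : ℕ) (hy : ∀ x, codeC n R x ≠ y) : ((vA p n (codeL n R l) y : ℕ) : ZMod p) = 0 := by
  rcases l with ⟨v, ⟨a, b⟩ | ⟨X, i⟩⟩ | v
  · rw [vA_pair, cs_zero p n R y hy, cs_zero p n R y hy, sub_zero]
  · rw [vA_block, cs_zero p n R y hy, cs_zero p n R y hy, mul_zero, add_zero]
  · rw [vA_vertex, cs_zero p n R y hy]

theorem vB_zero {p : ℕ} [hp : Fact p.Prime] (n : ℕ) (R : ℕ → ℕ → Prop) (l : Line (gr n R))
    (y : ℕ) (hy : ∀ x, codeC n R x ≠ y) : ((vB n (codeL n R l) y : ℕ) : ZMod p) = 0 := by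
  rcases l with ⟨v, g⟩ | v
  · rw [vB_gen, cs_zero p n R y hy, cs_zero p n R y hy, mul_zero, add_zero]
  · rw [vB_vertex, cs_zero p n R y hy]

end Pool.Agent.Helper36.Alg
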